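import Mathlib
import Pool.Agent.Helper832.CentAut.Top

/-!
Necessary and sufficient conditions for every central automorphism of a finite `p`-group of
class two to be class-preserving.
-/

set_option autoImplicit false

open scoped commutatorElement

namespace Pool.Agent.Results.MP_7393fc_al.Criterion

open Pool.Agent.Helper832.CentAut

theorem result (p : ℕ) (hpf : Fact p.Prime) (G : Type) [Group G] [Finite G] (hp : IsPGroup p G)
    (hcl : commutator G ≤ Subgroup.center G) (hne : commutator G ≠ ⊥) :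
    -- the criterion in terms of divisibility modulo the centre
    ((∀ α : G ≃* G, IsCentralAut α ↔ IsClassPreserving α) ↔
      (Subgroup.center G = commutator G ∧
        ∀ x z : G, z ∈ Subgroup.center G → (Admissible x z ↔ ∃ g, z = ⁅x, g⁆))) ∧
    -- the criterion in terms of class sizes
    (∀ (ι : Type) [Fintype ι] (n : ι → ℕ), (∀ i, n i ≠ 0) →
      Nonempty (Subgroup.center G ≃* ((i : ι) → Multiplicative (ZMod (n i)))) →
      (∀ x : G, Nat.card {y : G // IsConj x y} ≤ ∏ i, relOrder x (n i)) ∧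
      ((∀ α : G ≃* G, IsCentralAut α ↔ IsClassPreserving α) ↔
        (Subgroup.center G = commutator G ∧
          ∀ x : G, (¬ ∃ y : G, ∃ c ∈ Subgroup.center G, x = y ^ p * c) →
            Nat.card {y : G // IsConj x y} = ∏ i, relOrder x (n i)))) ∧
    -- cyclic centre
    (IsCyclic (Subgroup.center G) →
      ((∀ α : G ≃* G, IsCentralAut α ↔ IsClassPreserving α) ↔
        Subgroup.center G = commutator G)) ∧
    -- homocyclic centre
    (∀ r k : ℕ, k ≠ 0 → Nonempty (Subgroup.center G ≃* (Fin r → Multiplicative (ZMod (p ^ k)))) →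
      ((∀ α : G ≃* G, IsCentralAut α ↔ IsClassPreserving α) ↔
        (Subgroup.center G = commutator G ∧
          ∀ y : G, y ∉ Subgroup.center G → y ^ p ∈ Subgroup.center G →
            ∀ z ∈ Subgroup.center G, z ^ p = 1 → ∃ g, z = ⁅y, g⁆)) ∧
      ((∀ α : G ≃* G, IsCentralAut α ↔ IsClassPreserving α) ↔
        (Subgroup.center G = commutator G ∧
          ∀ N : Subgroup G, N ≤ Subgroup.center G →
            (∃ z : G, orderOf z = p ^ k ∧ N ⊔ Subgroup.zpowers z = Subgroup.center G ∧
              N ⊓ Subgroup.zpowers z = ⊥) →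
            ∀ x : G, (∀ g, ⁅x, g⁆ ∈ N) → x ∈ Subgroup.center G))) ∧
    -- homocyclic central quotient
    (∀ d a : ℕ, Nonempty ((G ⧸ Subgroup.center G) ≃* (Fin d → Multiplicative (ZMod (p ^ a)))) →
      ((∀ α : G ≃* G, IsCentralAut α ↔ IsClassPreserving α) ↔
        (Subgroup.center G = commutator G ∧
          ∀ x : G, (¬ ∃ y : G, ∃ c ∈ Subgroup.center G, x = y ^ p * c) →
            ∀ z ∈ Subgroup.center G, ∃ g, z = ⁅x, g⁆))) := by
  refine ⟨criterion hp hcl hne, ?_, criterion_cyclic hp hcl hne, ?_, ?_⟩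
  · rintro ι _ n hn ⟨e⟩
    exact ⟨fun x => (class_size n hn e hcl x).1, criterion_size n hn e hp hcl hne⟩
  · rintro r k hk ⟨e⟩
    have hpk : p ^ k ≠ 0 := pow_ne_zero _ hpf.out.ne_zero
    have h1 : (∀ α : G ≃* G, IsCentralAut α ↔ IsClassPreserving α) ↔
        (Subgroup.center G = commutator G ∧
          ∀ y : G, y ∉ Subgroup.center G → y ^ p ∈ Subgroup.center G →
            ∀ z ∈ Subgroup.center G, z ^ p = 1 → ∃ g, z = ⁅y, g⁆) :=
      ⟨fun H => ⟨((criterion hp hcl hne).mp H).1, socle_nec hp hcl hne r (p ^ k) hpk e H⟩,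
        fun h => socle_suff hp hcl hne h.1 h.2⟩
    refine ⟨h1, ?_⟩
    rw [h1, quot_iff hp hcl r k hk e]
  · rintro d a ⟨e⟩
    exact ⟨fun H => ⟨((criterion hp hcl hne).mp H).1, top_nec hp hcl hne d a e H⟩,
        fun h => top_suff hp hcl hne h.1 h.2⟩

end Pool.Agent.Results.MP_7393fc_al.Criterion
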